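import Mathlib
import Pool.Agent.H341Q.PNDefs

/-!
Martin's axiom and three of its consequences: the continuum hypothesis implies it, fewer than
continuum many functions are bounded, and sets of size less than the continuum are null.
-/

set_option autoImplicit false

open Cardinal Set Filter MeasureTheory
open scoped ENNReal

namespace Pool.Agent.Y40.MA

/-- Two conditions are compatible if they have a common extension. -/
def Compat {P : Type} [Preorder P] (p q : P) : Prop := ∃ r, r ≤ p ∧ r ≤ q

/-- The countable chain condition: every set of pairwise incompatible conditions is countable. -/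
def CCC (P : Type) [Preorder P] : Prop :=
  ∀ S : Set P, (∀ p ∈ S, ∀ q ∈ S, p ≠ q → ¬ Compat p q) → S.Countable

/-- A dense set of conditions. -/
def DenseBelow {P : Type} [Preorder P] (D : Set P) : Prop := ∀ p, ∃ q ∈ D, q ≤ p

/-- A filter of conditions. -/
structure IsFil {P : Type} [Preorder P] (G : Set P) : Prop where
  nonempty : G.Nonempty
  up : ∀ p ∈ G, ∀ q, p ≤ q → q ∈ G
  dir : ∀ p ∈ G, ∀ q ∈ G, ∃ r ∈ G, r ≤ p ∧ r ≤ q

/-- **Martin's axiom**: for every nonempty forcing notion with the countable chain condition and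
fewer than continuum many dense sets there is a filter that meets all of them. -/
def MartinAxiom : Prop :=
  ∀ (P : Type) [Preorder P] [Nonempty P], CCC P →
    ∀ 𝒟 : Set (Set P), #𝒟 < 𝔠 → (∀ D ∈ 𝒟, DenseBelow D) →
      ∃ G : Set P, IsFil G ∧ ∀ D ∈ 𝒟, (G ∩ D).Nonempty

/-- The continuum hypothesis implies Martin's axiom. -/
theorem martin_of_ch (CH : (𝔠 : Cardinal.{0}) = ℵ₁) : MartinAxiom := by
  classical
  intro P _ hP _ 𝒟 h𝒟 hd
  obtain ⟨p₀⟩ := hP
  rw [CH, Cardinal.lt_aleph_one_iff, Cardinal.le_aleph0_iff_set_countable] at h𝒟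
  rcases 𝒟.eq_empty_or_nonempty with rfl | hne
  · exact ⟨{q | p₀ ≤ q}, ⟨⟨p₀, le_refl p₀⟩, fun p hp q hq => le_trans hp hq,
      fun p hp q hq => ⟨p₀, le_refl p₀, hp, hq⟩⟩, by simp⟩
  · obtain ⟨D, hD⟩ := h𝒟.exists_eq_range hne
    have hDd : ∀ n, DenseBelow (D n) := fun n => hd _ (hD ▸ ⟨n, rfl⟩)
    choose next hmem hle using hDd
    let s : ℕ → P := fun n => Nat.rec p₀ (fun n p => next n p) n
    have hs : ∀ n, s (n + 1) = next n (s n) := fun _ => rfl
    have hanti : ∀ m n, m ≤ n → s n ≤ s m := by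
      intro m n hmn
      induction n, hmn using Nat.le_induction with
      | base => exact le_refl _
      | succ n _ ih => exact (hle n (s n)).trans ih
    refine ⟨{q | ∃ n, s n ≤ q}, ⟨⟨p₀, 0, le_refl _⟩, ?_, ?_⟩, ?_⟩
    · rintro p ⟨n, hn⟩ q hq
      exact ⟨n, hn.trans hq⟩
    · rintro p ⟨n, hn⟩ q ⟨m, hm⟩
      exact ⟨s (max n m), ⟨_, le_refl _⟩, (hanti _ _ (le_max_left _ _)).trans hn,
        (hanti _ _ (le_max_right _ _)).trans hm⟩
    · rw [hD]
      rintro _ ⟨n, rfl⟩
      exact ⟨s (n + 1), ⟨n + 1, le_refl _⟩, hmem n (s n)⟩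

/-- fewer than continuum many dense sets, indexed with a countable parameter -/
theorem mk_range_lt {T P : Type} (hT : #T < 𝔠) (D : T → ℕ → Set P) :
    #(range fun p : T × ℕ => D p.1 p.2) < 𝔠 := by
  refine Cardinal.mk_range_le.trans_lt ?_
  rw [Cardinal.mk_prod, Cardinal.lift_id, Cardinal.lift_id, Cardinal.mk_nat]
  exact Cardinal.mul_lt_of_lt Cardinal.aleph0_le_continuum hT Cardinal.aleph0_lt_continuum

/-- a filter meeting all sets of a family with a countable parameter -/
theorem MartinAxiom.meet (ma : MartinAxiom) (P : Type) [Preorder P] [Nonempty P] (hP : CCC P)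
    {T : Type} (hT : #T < 𝔠) (D : T → ℕ → Set P) (hD : ∀ t n, DenseBelow (D t n)) :
    ∃ G : Set P, IsFil G ∧ ∀ t n, (G ∩ D t n).Nonempty := by
  obtain ⟨G, hG, h⟩ := ma P hP _ (mk_range_lt hT D) (by
    rintro _ ⟨p, rfl⟩
    exact hD _ _)
  exact ⟨G, hG, fun t n => h _ ⟨(t, n), rfl⟩⟩

theorem ccc_of_countable (P : Type) [Preorder P] [Countable P] : CCC P :=
  fun S _ => S.to_countable

/-! ### Bounding functions -/

/-- Conditions for adding a function: a length and a function. -/
def Hech : Type := ℕ × (ℕ → ℕ)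

instance : Preorder Hech where
  le p q := q.1 ≤ p.1 ∧ (∀ i, q.2 i ≤ p.2 i) ∧ ∀ i < q.1, p.2 i = q.2 i
  le_refl p := ⟨le_refl _, fun _ => le_refl _, fun _ _ => rfl⟩
  le_trans p q r h1 h2 := ⟨h2.1.trans h1.1, fun i => (h2.2.1 i).trans (h1.2.1 i),
    fun i hi => (h1.2.2 i (lt_of_lt_of_le hi h2.1)).trans (h2.2.2 i hi)⟩

theorem hech_le {p q : Hech} :
    p ≤ q ↔ q.1 ≤ p.1 ∧ (∀ i, q.2 i ≤ p.2 i) ∧ ∀ i < q.1, p.2 i = q.2 i := Iff.rfl

instance : Nonempty Hech := ⟨((0, fun _ => 0) : ℕ × (ℕ → ℕ))⟩

theorem ccc_hech : CCC Hech := by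
  intro S hS
  let φ : Hech → ℕ × List ℕ := fun p => (p.1, (List.range p.1).map p.2)
  have hinj : Set.InjOn φ S := by
    intro p hp q hq h
    by_contra hne
    apply hS p hp q hq hne
    have h1 : p.1 = q.1 := congrArg (fun z : ℕ × List ℕ => z.1) h
    have h2 : (List.range p.1).map p.2 = (List.range q.1).map q.2 :=
      congrArg (fun z : ℕ × List ℕ => z.2) h
    have h3 : ∀ i < p.1, p.2 i = q.2 i := by
      rw [← h1] at h2
      intro i hi
      exact (List.map_inj_left.1 h2) i (List.mem_range.2 hi)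
    refine ⟨((p.1, fun i => max (p.2 i) (q.2 i)) : ℕ × (ℕ → ℕ)), ?_, ?_⟩
    · exact ⟨le_refl _, fun i => le_max_left _ _, fun i hi => by
        show max (p.2 i) (q.2 i) = p.2 i
        rw [← h3 i hi, max_self]⟩
    · exact ⟨h1.ge, fun i => le_max_right _ _, fun i hi => by
        show max (p.2 i) (q.2 i) = q.2 i
        rw [h3 i (h1 ▸ hi), max_self]⟩
  exact Set.countable_of_injective_of_countable_image hinj (Set.to_countable _)

/-- Under Martin's axiom fewer than continuum many functions are bounded, up to constants. -/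
theorem bounded_of_lt (ma : MartinAxiom) {T : Type} (hT : #T < 𝔠) (h : T → ℕ → ℕ) :
    ∃ g : ℕ → ℕ, ∀ t, ∃ k, ∀ i, h t i ≤ g i + k := by
  classical
  let D : T → ℕ → Set Hech := fun t n => {p | n ≤ p.1 ∧ ∀ i, p.1 ≤ i → h t i ≤ p.2 i}
  obtain ⟨G, hG, hGD⟩ := ma.meet Hech ccc_hech (T := Option T) (by
      rw [Cardinal.mk_option]
      exact Cardinal.add_lt_of_lt Cardinal.aleph0_le_continuum hT
        (Cardinal.one_lt_aleph0.trans Cardinal.aleph0_lt_continuum))
    (fun t n => match t with
      | none => {p : Hech | n ≤ p.1}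
      | some t => D t n) (by
      intro t n p
      cases t with
      | none =>
        refine ⟨((max n p.1, p.2) : ℕ × (ℕ → ℕ)), le_max_left n p.1, ?_⟩
        exact ⟨le_max_right _ _, fun _ => le_refl _, fun _ _ => rfl⟩
      | some t =>
        refine ⟨((max n p.1, fun i => if i < p.1 then p.2 i else max (p.2 i) (h t i)) :
          ℕ × (ℕ → ℕ)), ⟨le_max_left n p.1, ?_⟩, le_max_right _ _, ?_, ?_⟩
        · intro i hi
          have hi' : ¬ i < p.1 := not_lt.2 ((le_max_right n p.1).trans hi)
          show h t i ≤ if i < p.1 then p.2 i else max (p.2 i) (h t i)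
          rw [if_neg hi']
          exact le_max_right _ _
        · intro i
          show p.2 i ≤ if i < p.1 then p.2 i else max (p.2 i) (h t i)
          split_ifs
          · exact le_refl _
          · exact le_max_left _ _
        · intro i hi
          show (if i < p.1 then p.2 i else max (p.2 i) (h t i)) = p.2 i
          rw [if_pos hi])
  have h0 : ∀ i, ∃ p ∈ G, i < p.1 := by
    intro i
    obtain ⟨p, hp, hpn⟩ := hGD none (i + 1)
    exact ⟨p, hp, hpn⟩
  choose q hqG hq using h0
  refine ⟨fun i => (q i).2 i, fun t => ?_⟩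
  obtain ⟨p, hp, -, hpt⟩ := hGD (some t) 0
  refine ⟨∑ i ∈ Finset.range p.1, h t i, fun i => ?_⟩
  by_cases hi : i < p.1
  · have := Finset.single_le_sum (f := fun i => h t i) (fun _ _ => Nat.zero_le _)
      (Finset.mem_range.2 hi)
    exact this.trans (Nat.le_add_left _ _)
  · obtain ⟨r, hr, hrp, hrq⟩ := hG.dir p hp (q i) (hqG i)
    have h1 : h t i ≤ p.2 i := hpt i (not_lt.1 hi)
    have h2 : p.2 i ≤ r.2 i := hrp.2.1 i
    have h3 : r.2 i = (q i).2 i := hrq.2.2 i (hq i)
    show h t i ≤ (q i).2 i + _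
    omega

/-! ### Null sets -/

open Pool.Agent.H341Q.PN

/-- the basic open set of a finite sequence -/
def cylL (s : List Bool) : Set Cs := cyl (fun i => s.getD i false) s.length

theorem cyl_eq_cylL (x : Cs) (b : ℕ) : cylL (code b x) = cyl x b := by
  have hl : (code b x).length = b := by simp [code]
  unfold cylL
  rw [hl]
  ext y
  constructor
  · intro h i hi
    exact (h i hi).trans (code_getD hi)
  · intro h i hi
    exact (h i hi).trans (code_getD hi).symm

/-- finite sequences of finite sequences, ordered by extension -/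
def Coh : Type := List (List Bool)

instance : Preorder Coh where
  le p q := List.IsPrefix (q : List (List Bool)) p
  le_refl p := List.prefix_rfl
  le_trans _ _ _ h1 h2 := List.IsPrefix.trans h2 h1

instance : Countable Coh := inferInstanceAs (Countable (List (List Bool)))

instance : Nonempty Coh := ⟨([] : List (List Bool))⟩

/-- an entry of a finite sequence -/
def nth (l : List (List Bool)) (n : ℕ) : Option (List Bool) := l[n]?

theorem nth_of_prefix {l l' : List (List Bool)} (h : List.IsPrefix l l') {n : ℕ} {s : List Bool}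
    (hs : nth l n = some s) : nth l' n = some s := by
  obtain ⟨t, rfl⟩ := h
  have hs' : l[n]? = some s := hs
  have hn : n < l.length := (List.getElem?_eq_some_iff.1 hs').1
  show (l ++ t)[n]? = some s
  rw [List.getElem?_append_left hn]
  exact hs'

/-- Under Martin's axiom, sets of size less than the continuum are null for every finite measure
vanishing on points. -/
theorem null_of_lt (ma : MartinAxiom) (μ : Measure Cs) [IsFiniteMeasure μ] (hna : ∀ x, μ {x} = 0)
    (S : Set Cs) (hS : #S < 𝔠) : μ S = 0 := by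
  classical
  let W : ℕ → List Bool → Set Cs := fun n s => if μ (cylL s) ≤ (1 / 2) ^ n then cylL s else ∅
  have hW : ∀ n s, μ (W n s) ≤ (1 / 2) ^ n := by
    intro n s
    simp only [W]
    split_ifs with h
    · exact h
    · simp
  have hsmall : ∀ (x : Cs) (n : ℕ), ∃ s, x ∈ W n s := by
    intro x n
    have h1 : Tendsto (fun b => μ (cyl x b)) atTop (nhds (μ (⋂ b, cyl x b))) := by
      apply tendsto_measure_iInter_atTop
      · exact fun b => (isOpen_cyl x b).measurableSet.nullMeasurableSet
      · intro b c hbc y hy i hi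
        exact hy i (hi.trans_le hbc)
      · exact ⟨0, measure_ne_top _ _⟩
    have h2 : (⋂ b, cyl x b) = {x} := by
      ext y
      simp only [mem_iInter, mem_singleton_iff]
      constructor
      · intro h
        funext i
        exact h (i + 1) i (Nat.lt_succ_self i)
      · rintro rfl b
        exact self_mem_cyl _ _
    rw [h2, hna] at h1
    have hpos : (0 : ℝ≥0∞) < (1 / 2) ^ n := by
      apply ENNReal.pow_pos
      simp
    obtain ⟨b, hb⟩ := (h1.eventually_lt_const hpos).exists
    refine ⟨code b x, ?_⟩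
    simp only [W]
    rw [cyl_eq_cylL, if_pos hb.le]
    exact self_mem_cyl _ _
  let D : S → ℕ → Set Coh := fun x m =>
    {p | ∃ n, m ≤ n ∧ ∃ s, nth p n = some s ∧ (x : Cs) ∈ W n s}
  obtain ⟨G, hG, hGD⟩ := ma.meet Coh (ccc_of_countable Coh) hS D (by
    intro x m p
    let l : List (List Bool) := p
    let l' : List (List Bool) := l ++ List.replicate m []
    obtain ⟨s, hs⟩ := hsmall x l'.length
    refine ⟨(l' ++ [s] : List (List Bool)), ⟨l'.length, ?_, s, ?_, hs⟩, ?_⟩
    · simp [l']
    · show (l' ++ [s])[l'.length]? = some s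
      simp
    · show List.IsPrefix l (l' ++ [s])
      simp only [l', List.append_assoc]
      exact List.prefix_append _ _)
  let u : ℕ → List Bool := fun n =>
    if h : ∃ s, ∃ p ∈ G, nth p n = some s then h.choose else []
  have hu : ∀ (n : ℕ) (s : List Bool) (p : Coh), p ∈ G → nth p n = some s →
      u n = s := by
    intro n s p hp hps
    have h : ∃ s, ∃ p ∈ G, nth p n = some s := ⟨s, p, hp, hps⟩
    simp only [u]
    rw [dif_pos h]
    obtain ⟨q, hq, hqs⟩ := h.choose_spec
    obtain ⟨r, hr, hrp, hrq⟩ := hG.dir p hp q hq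
    have e1 : nth r n = some s := nth_of_prefix hrp hps
    have e2 : nth r n = some h.choose := nth_of_prefix hrq hqs
    rw [e1] at e2
    exact (Option.some.inj e2).symm
  have hnull : μ {y | ∃ᶠ n in atTop, y ∈ W n (u n)} = 0 := by
    refine measure_setOfPred_frequently_eq_zero ?_
    have h1 : ∑' n, μ (W n (u n)) ≤ ∑' n, (1 / 2 : ℝ≥0∞) ^ n :=
      ENNReal.tsum_le_tsum fun n => hW n (u n)
    rw [ENNReal.tsum_geometric] at h1
    refine ne_top_of_le_ne_top ?_ h1
    simp [ENNReal.one_sub_inv_two]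
  refine measure_mono_null ?_ hnull
  intro x hx
  show ∃ᶠ n in atTop, x ∈ W n (u n)
  rw [frequently_atTop]
  intro m
  obtain ⟨p, hp, n, hmn, s, hps, hxs⟩ := hGD ⟨x, hx⟩ m
  refine ⟨n, hmn, ?_⟩
  rw [hu n s p hp hps]
  exact hxs

end Pool.Agent.Y40.MA
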