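import Pool.Agent.Y40.MA.Core
import Pool.Agent.H341Q.PNMain

/-!
Martin's axiom: a countably perfectly meager and universally null set which is not countably
perfectly null, in every uncountable Polish space.
-/

set_option autoImplicit false

open Cardinal Set Filter MeasureTheory Topology
open scoped ENNReal

namespace Pool.Agent.Y40.MA

open Pool.Agent.H341Q.PN

/-- the forcing notion of the good closed sets of positive measure -/
def GoodP : Type := {K : Set Cs // Pos K}

instance : Preorder GoodP := inferInstanceAs (Preorder {K : Set Cs // Pos K})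

instance : Nonempty GoodP := ⟨⟨Set.univ, pos_univ⟩⟩

theorem ccc_goodP : CCC GoodP := by
  intro S hS
  have h1 : Set.Countable {i : S | 0 < lam (i : GoodP).1} := by
    refine Measure.countable_meas_pos_of_disjoint_iUnion₀ (μ := lam)
      (As := fun i : S => (i : GoodP).1) ?_ ?_
    · intro i
      exact (i : GoodP).2.1.closed.measurableSet.nullMeasurableSet
    · intro i j hij
      show lam ((i : GoodP).1 ∩ (j : GoodP).1) = 0
      by_contra hne
      refine hS i.1 i.2 j.1 j.2 (fun h => hij (Subtype.ext h)) ?_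
      exact ⟨⟨(i : GoodP).1 ∩ (j : GoodP).1, (i : GoodP).2.1.inter (j : GoodP).2.1, hne⟩,
        inter_subset_left, inter_subset_right⟩
  have h2 : {i : S | 0 < lam (i : GoodP).1} = Set.univ := by
    ext i
    simp only [mem_univ, iff_true]
    exact pos_iff_ne_zero.2 (i : GoodP).2.2
  rw [h2, Set.countable_univ_iff] at h1
  exact Set.countable_coe_iff.1 h1

/-- Under Martin's axiom one point meets fewer than continuum many tasks. -/
theorem meets_of_lt (ma : MartinAxiom) {T : Type} (hT : #T < 𝔠) (t : T → Task) :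
    ∃ a : Cs, ∀ j, Meets a (t j) := by
  obtain ⟨G, hG, hGD⟩ := ma.meet GoodP ccc_goodP hT
    (fun j N => {K : GoodP | Disjoint K.1 (t j).E ∧ (∃ k, K.1 ⊆ Fk (t j).d k) ∧
      ∃ n ≥ N, K.1 ⊆ V (t j).u n}) (by
      intro j N K
      obtain ⟨K', hsub, hpos, h⟩ := K.2.step (t j) N
      exact ⟨⟨K', hpos⟩, h, hsub⟩)
  have hne : (⋂ K : G, (K : GoodP).1).Nonempty := by
    have : Nonempty G := hG.nonempty.to_subtype
    refine IsCompact.nonempty_iInter_of_directed_nonempty_isCompact_isClosed _ ?_ ?_ ?_ ?_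
    · intro K L
      obtain ⟨r, hr, h1, h2⟩ := hG.dir K.1 K.2 L.1 L.2
      exact ⟨⟨r, hr⟩, h1, h2⟩
    · intro K
      by_contra hcon
      rw [not_nonempty_iff_eq_empty] at hcon
      apply (K : GoodP).2.2
      rw [hcon, measure_empty]
    · exact fun K => (K : GoodP).2.1.closed.isCompact
    · exact fun K => (K : GoodP).2.1.closed
  obtain ⟨a, ha⟩ := hne
  rw [mem_iInter] at ha
  refine ⟨a, fun j => ⟨?_, ?_, ?_⟩⟩
  · obtain ⟨K, hK, h1, -, -⟩ := hGD j 0
    exact Set.disjoint_left.1 h1 (ha ⟨K, hK⟩)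
  · obtain ⟨K, hK, -, ⟨k, hk⟩, -⟩ := hGD j 0
    exact ⟨k, hk (ha ⟨K, hK⟩)⟩
  · rw [frequently_atTop]
    intro N
    obtain ⟨K, hK, -, -, n, hn, hV⟩ := hGD j N
    exact ⟨n, hn, hV (ha ⟨K, hK⟩)⟩

/-- Under Martin's axiom a set of size less than the continuum is separated from a countable set by
an `F_σ` set. -/
theorem separate (ma : MartinAxiom) (S : Set Cs) (hS : #S < 𝔠) (d : ℕ → Cs) :
    ∃ F : ℕ → Set Cs, (∀ k, IsClosed (F k)) ∧ (∀ k i, d i ∉ F k) ∧ S \ range d ⊆ ⋃ k, F k := by
  classical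
  have hex : ∀ (x : Cs) (i : ℕ), ∃ n, x ∉ range d → x ∉ cyl (d i) n := by
    intro x i
    by_cases hx : x ∈ range d
    · exact ⟨0, fun h => absurd hx h⟩
    · have hne : x ≠ d i := fun h => hx ⟨i, h.symm⟩
      obtain ⟨n, hn⟩ := exists_cyl (x := d i) (isOpen_compl_singleton.mem_nhds
        (show d i ∈ ({x} : Set Cs)ᶜ from fun h => hne (mem_singleton_iff.1 h).symm))
      exact ⟨n, fun _ h => hn h rfl⟩
  choose h hh using hex
  obtain ⟨g, hg⟩ := bounded_of_lt ma hS (fun x : S => h x)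
  refine ⟨fun k => (⋃ i, cyl (d i) (g i + k))ᶜ,
    fun k => (isOpen_iUnion fun _ => isOpen_cyl _ _).isClosed_compl, ?_, ?_⟩
  · intro k i hi
    exact hi (mem_iUnion.2 ⟨i, self_mem_cyl _ _⟩)
  · rintro x ⟨hxS, hxd⟩
    obtain ⟨k, hk⟩ := hg ⟨x, hxS⟩
    refine mem_iUnion.2 ⟨k, fun hx => ?_⟩
    obtain ⟨i, hi⟩ := mem_iUnion.1 hx
    exact hh x i hxd fun j hj => hi j (hj.trans_le (hk i))

/-- the set -/
theorem exists_set_ma (ma : MartinAxiom) :
    ∃ (ι : Type) (a : ι → Cs), #ι = 𝔠 ∧ ∀ t : Task, #{i | ¬ Meets (a i) t} < 𝔠 := by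
  classical
  let ι : Type := (𝔠 : Cardinal.{0}).ord.ToType
  have hι : #ι = 𝔠 := Cardinal.mk_ord_toType _
  have hIio : ∀ i : ι, #(Set.Iio i) < 𝔠 := by
    intro i
    have h1 : #(Set.Iio i) < #ι := Cardinal.mk_Iio_lt i (by simp [ι])
    rwa [hι] at h1
  have hIic : ∀ i : ι, #(Set.Iic i) < 𝔠 := by
    intro i
    have h2 : (Set.Iic i : Set ι) = insert i (Set.Iio i) := Set.Iio_insert.symm
    rw [h2]
    refine (Cardinal.mk_insert_le).trans_lt ?_
    exact Cardinal.add_lt_of_lt Cardinal.aleph0_le_continuum (hIio i)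
      (Cardinal.one_lt_aleph0.trans Cardinal.aleph0_lt_continuum)
  have hne : Nonempty Task := ⟨⟨∅, isClosed_empty, measure_empty, fun _ _ => false,
    fun _ _ _ => false⟩⟩
  obtain ⟨g⟩ := Cardinal.le_def _ _ |>.mp (mk_task.trans hι.ge)
  let f : ι → Task := Function.invFun g
  have hf : Function.Surjective f := Function.invFun_surjective g.injective
  have hex : ∀ i : ι, ∃ x : Cs, ∀ j : Set.Iic i, Meets x (f j) := fun i =>
    meets_of_lt ma (hIic i) (fun j : Set.Iic i => f j)
  choose a ha using hex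
  refine ⟨ι, a, hι, ?_⟩
  intro t
  obtain ⟨j, rfl⟩ := hf t
  refine (Cardinal.mk_le_mk_of_subset ?_).trans_lt (hIio j)
  intro i hi
  by_contra hcon
  exact hi (ha i ⟨j, Set.mem_Iic.2 (not_lt.mp hcon)⟩)

/-- a countable union of sets of size less than the continuum has size less than the continuum -/
theorem mk_iUnion_lt {ι : Type} (s : ℕ → Set ι) (hs : ∀ n, #(s n) < 𝔠) : #(⋃ n, s n : Set ι) < 𝔠 := by
  refine (Cardinal.mk_iUnion_le_sum_mk).trans_lt ?_
  refine (Cardinal.sum_le_mk_mul_iSup _).trans_lt ?_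
  rw [Cardinal.mk_nat]
  refine Cardinal.mul_lt_of_lt Cardinal.aleph0_le_continuum Cardinal.aleph0_lt_continuum ?_
  refine Cardinal.iSup_lt_of_lt_cof_ord ?_ hs
  rw [Cardinal.mk_nat, ← Cardinal.two_power_aleph0]
  exact Cardinal.lt_cof_ord_power le_rfl Cardinal.one_lt_two

/-- the properties of the set in the Cantor space -/
theorem exists_set_ma' (ma : MartinAxiom) :
    ∃ A : Set Cs,
      (∀ D : Set Cs, D.Countable → ∃ F : ℕ → Set Cs, (∀ k, IsClosed (F k)) ∧
        (∀ k, Disjoint (F k) D) ∧ (A \ ⋃ k, F k).Countable) ∧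
      (∀ μ : Measure Cs, IsFiniteMeasure μ → (∀ x, μ {x} = 0) → μ A = 0) ∧
      (∀ E : ℕ → Set Cs, (∀ n, IsClosed (E n)) → (∀ n, lam (E n) = 0) → ¬ A ⊆ ⋃ n, E n) := by
  classical
  obtain ⟨ι, a, hι, ha⟩ := exists_set_ma ma
  refine ⟨range a, ?_, ?_, ?_⟩
  · intro D hD
    obtain ⟨d, hd, hdD⟩ : ∃ d : ℕ → Cs, D ⊆ range d ∧ (range d).Countable := by
      rcases D.eq_empty_or_nonempty with rfl | hne
      · exact ⟨fun _ _ => false, empty_subset _, countable_range _⟩
      · obtain ⟨d, hd⟩ := hD.exists_eq_range hne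
        exact ⟨d, hd.subset, countable_range _⟩
    have h := ha ⟨∅, isClosed_empty, measure_empty, d, fun _ _ _ => false⟩
    obtain ⟨F, hFc, hFd, hFS⟩ := separate ma (a '' {i | ¬ Meets (a i)
      ⟨∅, isClosed_empty, measure_empty, d, fun _ _ _ => false⟩})
      (Cardinal.mk_image_le.trans_lt h) d
    refine ⟨fun n => Fk d n ∪ F n, fun n => (isClosed_Fk d n).union (hFc n), ?_, ?_⟩
    · intro k
      rw [Set.disjoint_left]
      rintro x (hx | hx) hxD
      · obtain ⟨i, rfl⟩ := hd hxD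
        exact notMem_Fk d k i hx
      · obtain ⟨i, rfl⟩ := hd hxD
        exact hFd k i hx
    · refine hdD.mono ?_
      rintro _ ⟨⟨i, rfl⟩, hi⟩
      by_contra hx
      by_cases hm : Meets (a i) ⟨∅, isClosed_empty, measure_empty, d, fun _ _ _ => false⟩
      · obtain ⟨k, hk⟩ := hm.2.1
        exact hi (mem_iUnion.mpr ⟨k, Or.inl hk⟩)
      · obtain ⟨k, hk⟩ := mem_iUnion.1 (hFS ⟨⟨i, hm, rfl⟩, hx⟩)
        exact hi (mem_iUnion.mpr ⟨k, Or.inr hk⟩)
  · intro μ hμ hna
    obtain ⟨u, hu⟩ := exists_guess_null μ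
    have h := ha ⟨∅, isClosed_empty, measure_empty, fun _ _ => false, u⟩
    refine measure_mono_null ?_ (measure_union_null hu
      (null_of_lt ma μ hna (a '' {i | ¬ Meets (a i)
        ⟨∅, isClosed_empty, measure_empty, fun _ _ => false, u⟩})
        (Cardinal.mk_image_le.trans_lt h)))
    rintro _ ⟨i, rfl⟩
    by_cases hm : Meets (a i) ⟨∅, isClosed_empty, measure_empty, fun _ _ => false, u⟩
    · exact Or.inl hm.2.2
    · exact Or.inr ⟨i, hm, rfl⟩
  · intro E hE h0 hsub
    have h : ∀ n, #{i | ¬ Meets (a i)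
        ⟨E n, hE n, h0 n, fun _ _ => false, fun _ _ _ => false⟩} < 𝔠 := fun n => ha _
    have h1 := mk_iUnion_lt _ h
    have h2 : (⋃ n, {i | ¬ Meets (a i)
        ⟨E n, hE n, h0 n, fun _ _ => false, fun _ _ _ => false⟩}) = Set.univ := by
      refine eq_univ_of_forall fun i => ?_
      obtain ⟨n, hn⟩ := mem_iUnion.mp (hsub ⟨i, rfl⟩)
      exact mem_iUnion.mpr ⟨n, fun hm => hm.1 hn⟩
    rw [h2, Cardinal.mk_univ, hι] at h1
    exact lt_irrefl _ h1

/-! ### Uncountable Borel sets of Polish spaces -/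

section general

variable {X : Type*} [TopologicalSpace X]

theorem exists_inj_in [PolishSpace X] [MeasurableSpace X] [BorelSpace X] (B : Set X)
    (hB : MeasurableSet B) (hunc : ¬ B.Countable) :
    ∃ f : Cs → X, range f ⊆ B ∧ Continuous f ∧ Function.Injective f := by
  obtain ⟨t', ht', hp, hc, _⟩ := MeasurableSet.isClopenable hB
  obtain ⟨f, h1, h2, h3⟩ := @IsClosed.exists_nat_bool_injection_of_not_countable X t' hp B hc hunc
  exact ⟨f, h1, continuous_le_rng ht' h2, h3⟩

/-- an uncountable Borel set contains a closed copy of the Cantor space -/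
theorem exists_copy_in [PolishSpace X] [MeasurableSpace X] [BorelSpace X] (B : Set X)
    (hB : MeasurableSet B) (hunc : ¬ B.Countable) :
    ∃ φ : Cs → X, IsClosedEmbedding φ ∧ range φ ⊆ B := by
  obtain ⟨f, h1, h2, h3⟩ := exists_inj_in B hB hunc
  exact ⟨f, h2.isClosedEmbedding h3, h1⟩

/-- Under Martin's axiom, every uncountable Borel subset of a Polish space contains a countably
perfectly meager and universally null set that is not countably perfectly null. -/
theorem exists_general_ma [PolishSpace X] [MeasurableSpace X] [BorelSpace X] (ma : MartinAxiom)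
    (B : Set X) (hB : MeasurableSet B) (hunc : ¬ B.Countable) :
    ∃ A : Set X, A ⊆ B ∧ CountablyPerfectlyMeager A ∧ UniversallyNull A ∧
      ¬ CountablyPerfectlyNull A := by
  obtain ⟨A, hM, hU, hN⟩ := exists_set_ma' ma
  obtain ⟨φ, hφ, hφB⟩ := exists_copy_in B hB hunc
  have hme : MeasurableEmbedding φ := hφ.measurableEmbedding
  refine ⟨φ '' A, (image_subset_range _ _).trans hφB, ?_, ?_, ?_⟩
  · intro P hP
    have hD : ∀ n, ∃ D : Set (P n), D.Countable ∧ Dense D := fun n =>
      TopologicalSpace.exists_countable_dense (P n)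
    choose D hDc hDd using hD
    have hDc' : (φ ⁻¹' (⋃ n, Subtype.val '' (D n))).Countable :=
      (countable_iUnion (fun n => (hDc n).image _)).preimage hφ.injective
    obtain ⟨F, hF, hFD, hR⟩ := hM _ hDc'
    refine ⟨(⋃ k, φ '' (F k)) ∪ φ '' (A \ ⋃ k, F k), ?_, ?_, ?_⟩
    · obtain ⟨r, hr⟩ : ∃ r : ℕ → Set X, (∀ n, IsClosed (r n)) ∧
          φ '' (A \ ⋃ k, F k) = ⋃ n, r n := by
        rcases (φ '' (A \ ⋃ k, F k)).eq_empty_or_nonempty with he | hne
        · exact ⟨fun _ => ∅, fun _ => isClosed_empty, by rw [he]; simp⟩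
        · obtain ⟨e, he⟩ := (hR.image φ).exists_eq_range hne
          refine ⟨fun n => {e n}, fun _ => isClosed_singleton, ?_⟩
          rw [he]
          ext x
          simp [eq_comm]
      refine ⟨fun n => φ '' (F n) ∪ r n, fun n =>
        (hφ.isClosedMap _ (hF n)).union (hr.1 n), ?_⟩
      rw [hr.2, iUnion_union_distrib]
    · rintro _ ⟨x, hx, rfl⟩
      by_cases hxF : x ∈ ⋃ k, F k
      · left
        obtain ⟨k, hk⟩ := mem_iUnion.mp hxF
        exact mem_iUnion.mpr ⟨k, x, hk, rfl⟩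
      · right
        exact ⟨x, ⟨hx, hxF⟩, rfl⟩
    · intro n
      rw [preimage_union, preimage_iUnion]
      refine IsMeagre.union (isMeagre_iUnion fun k => ?_)
        (isMeagre_of_countable (hP n) (hR.image φ))
      apply IsNowhereDense.isMeagre
      have hcl : IsClosed ((Subtype.val : P n → X) ⁻¹' (φ '' (F k))) :=
        (hφ.isClosedMap _ (hF k)).preimage continuous_subtype_val
      rw [hcl.isNowhereDense_iff]
      by_contra hne
      obtain ⟨z, hz, hzD⟩ := (hDd n).inter_open_nonempty _ isOpen_interior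
        (nonempty_iff_ne_empty.mpr hne)
      have hz' : z ∈ (Subtype.val : P n → X) ⁻¹' (φ '' (F k)) := interior_subset hz
      obtain ⟨x, hx, hxz⟩ := hz'
      refine Set.disjoint_left.mp (hFD k) hx ?_
      rw [mem_preimage, hxz, mem_iUnion]
      exact ⟨n, z, hzD, rfl⟩
  · intro μ hμ hna
    have h := hU (μ.comap φ) (by
        constructor
        rw [hme.comap_apply]
        exact measure_lt_top _ _) (by
        intro x
        rw [hme.comap_apply, image_singleton]
        exact hna _)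
    rw [hme.comap_apply] at h
    exact h
  · intro hcon
    have hfin : IsFiniteMeasure (lam.map φ) := by infer_instance
    obtain ⟨F, ⟨C, hC, rfl⟩, hAF, h0⟩ := hcon (lam.map φ) hfin (by
      intro x
      rw [hme.map_apply]
      have hs : (φ ⁻¹' {x}).Subsingleton := subsingleton_singleton.preimage hφ.injective
      rcases hs.eq_empty_or_singleton with h | ⟨y, h⟩
      · rw [h, measure_empty]
      · rw [h]
        exact lam_sing y)
    refine hN (fun n => φ ⁻¹' (C n)) (fun n => (hC n).preimage hφ.continuous) ?_ ?_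
    · intro n
      rw [← hme.map_apply]
      exact measure_mono_null (subset_iUnion C n) h0
    · intro x hx
      obtain ⟨n, hn⟩ := mem_iUnion.mp (hAF ⟨x, hx, rfl⟩)
      exact mem_iUnion.mpr ⟨n, hn⟩

end general

end Pool.Agent.Y40.MA
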